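import Pool.Agent.H19.OM.Stm

/-!
# PLO: consecutive integers, one of the statistics is large for almost all `n`
-/

set_option autoImplicit false

namespace Pool.Agent.H6.OM

open Finset Pool.Agent.H19.OM

/-- Markov's inequality -/
theorem markov (s : Finset ℕ) (f : ℕ → ℝ) (hf : ∀ n ∈ s, 0 ≤ f n) (c : ℝ) :
    ((s.filter (fun n => c ≤ f n)).card : ℝ) * c ≤ ∑ n ∈ s, f n := by
  calc ((s.filter (fun n => c ≤ f n)).card : ℝ) * c = ∑ n ∈ s.filter (fun n => c ≤ f n), c := by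
        rw [sum_const, nsmul_eq_mul]
    _ ≤ ∑ n ∈ s.filter (fun n => c ≤ f n), f n :=
        sum_le_sum fun n hn => (mem_filter.1 hn).2
    _ ≤ ∑ n ∈ s, f n := sum_le_sum_of_subset_of_nonneg (filter_subset _ _) fun n hn _ => hf n hn

theorem root (N : ℕ) : ∃ z : ℕ, z ^ 8 ≤ N ∧ N < (z + 1) ^ 8 := by
  have h : ∃ x : ℕ, N < x ^ 8 := ⟨N + 1, lt_of_lt_of_le (Nat.lt_succ_self N)
    (Nat.le_self_pow (by norm_num) _)⟩
  classical
  obtain ⟨x, hx⟩ : ∃ x, x = Nat.find h := ⟨_, rfl⟩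
  have h1 := Nat.find_spec h
  rw [← hx] at h1
  have h0 : x ≠ 0 := by
    rintro rfl
    norm_num at h1
  refine ⟨x - 1, ?_, by rwa [Nat.sub_add_cancel (by omega)]⟩
  by_contra hc
  have h2 := Nat.find_min' h (not_le.1 hc)
  rw [← hx] at h2
  omega

theorem low_om {a y w M : ℕ} (ha : 1 ≤ a) (hM : 0 < M) (h2 : 2 ^ a ∣ M) (hy : 2 ≤ y) (hw : w ≤ y) :
    a + om w M ≤ Om y M := by
  classical
  have h2M : 2 ∣ M := dvd_trans (dvd_pow_self 2 (by omega)) h2
  have hsub : insert 2 ((Icc 3 w).filter (fun p => p.Prime ∧ p ∣ M)) ⊆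
      M.primeFactors.filter (fun p => p ≤ y) := by
    intro p hp
    rw [mem_insert, mem_filter, mem_Icc] at hp
    rw [mem_filter, Nat.mem_primeFactors]
    rcases hp with rfl | ⟨⟨h3, h4⟩, h5, h6⟩
    · exact ⟨⟨Nat.prime_two, h2M, hM.ne'⟩, hy⟩
    · exact ⟨⟨h5, h6, hM.ne'⟩, h4.trans hw⟩
  have hn : 2 ∉ (Icc 3 w).filter (fun p => p.Prime ∧ p ∣ M) := by
    intro h
    rw [mem_filter, mem_Icc] at h
    omega
  unfold Om om
  refine le_trans ?_ (sum_le_sum_of_subset hsub)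
  rw [sum_insert hn]
  have e1 : a ≤ M.factorization 2 := (Nat.prime_two.pow_dvd_iff_le_factorization hM.ne').1 h2
  have e2 : ((Icc 3 w).filter (fun p => p.Prime ∧ p ∣ M)).card ≤
      ∑ p ∈ (Icc 3 w).filter (fun p => p.Prime ∧ p ∣ M), M.factorization p := by
    rw [card_eq_sum_ones]
    refine sum_le_sum fun p hp => ?_
    rw [mem_filter] at hp
    exact hp.2.1.factorization_pos_of_dvd hM.ne' hp.2.2
  omega

theorem big_primes {M N z : ℕ} (hM : 0 < M) (hMN : M ≤ 2 * N) (hz : N < (z + 1) ^ 8) (hN : 1 ≤ N) :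
    (M.primeFactors.filter (fun p => z < p)).card ≤ 16 := by
  by_contra hc
  have h1 : (z + 1) ^ (M.primeFactors.filter (fun p => z < p)).card ≤
      ∏ p ∈ M.primeFactors.filter (fun p => z < p), p := by
    rw [← prod_const]
    exact prod_le_prod' fun p hp => (mem_filter.1 hp).2
  have h2 : ∏ p ∈ M.primeFactors.filter (fun p => z < p), p ≤ M := by
    refine Nat.le_of_dvd hM (dvd_trans ?_ (Nat.prod_primeFactors_dvd M))
    exact prod_dvd_prod_of_subset _ _ _ (filter_subset _ _)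
  have hz1 : 1 ≤ z := by
    by_contra h
    have : z = 0 := by omega
    subst this
    norm_num at hz
    omega
  have h3 : (z + 1) ^ 17 ≤ (z + 1) ^ (M.primeFactors.filter (fun p => z < p)).card :=
    Nat.pow_le_pow_right (by omega) (by omega)
  have h4 : 2 * N < (z + 1) ^ 17 := by
    calc 2 * N < 2 * (z + 1) ^ 8 := by omega
      _ ≤ (z + 1) * (z + 1) ^ 8 := Nat.mul_le_mul_right _ (by omega)
      _ = (z + 1) ^ 9 := by ring
      _ ≤ (z + 1) ^ 17 := Nat.pow_le_pow_right (by omega) (by norm_num)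
  omega

theorem upp_om {y z N M : ℕ} (hM : 0 < M) (hodd : ¬ 2 ∣ M) (hMN : M ≤ 2 * N)
    (hz : N < (z + 1) ^ 8) (hN : 1 ≤ N) : Om y M ≤ om (min y z) M + 16 + hp M := by
  classical
  have h1 : ∀ p ∈ M.primeFactors, 3 ≤ p := by
    intro p hp
    rw [Nat.mem_primeFactors] at hp
    have h2 : p ≠ 2 := by
      rintro rfl
      exact hodd hp.2.1
    have := hp.1.two_le
    omega
  have h2 : Om y M ≤ (M.primeFactors.filter (fun p => p ≤ y)).card + hp M := by
    unfold Om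
    have e1 : hp M = ∑ p ∈ M.primeFactors, (M.factorization p - 1) := by
      unfold hp
      rw [filter_true_of_mem]
      intro p hp
      have := h1 p hp
      omega
    have e2 : ∑ p ∈ M.primeFactors.filter (fun p => p ≤ y), (M.factorization p - 1) ≤ hp M := by
      rw [e1]
      exact sum_le_sum_of_subset (filter_subset _ _)
    have e3 : ∑ p ∈ M.primeFactors.filter (fun p => p ≤ y), M.factorization p ≤
        ∑ p ∈ M.primeFactors.filter (fun p => p ≤ y), (1 + (M.factorization p - 1)) :=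
      sum_le_sum fun p _ => by omega
    rw [sum_add_distrib, ← card_eq_sum_ones] at e3
    omega
  have h3 : M.primeFactors.filter (fun p => p ≤ y) ⊆
      (Icc 3 (min y z)).filter (fun p => p.Prime ∧ p ∣ M) ∪
        M.primeFactors.filter (fun p => z < p) := by
    intro p hp
    rw [mem_filter] at hp
    rw [mem_union]
    by_cases hpz : z < p
    · right
      exact mem_filter.2 ⟨hp.1, hpz⟩
    · left
      rw [mem_filter, mem_Icc]
      have h5 := Nat.mem_primeFactors.1 hp.1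
      exact ⟨⟨h1 p hp.1, le_min hp.2 (not_lt.1 hpz)⟩, h5.1, h5.2.1⟩
  have h4 := (card_le_card h3).trans (card_union_le _ _)
  have h5 := big_primes hM hMN hz hN
  have h6 : om (min y z) M = ((Icc 3 (min y z)).filter (fun p => p.Prime ∧ p ∣ M)).card := rfl
  omega

theorem t_PLO (h1 : S_PL1) (h2 : S_PL2) : S_PLO := by
  classical
  obtain ⟨C1, hC1, hP1⟩ := h1
  obtain ⟨C2, hC2, hP2⟩ := h2
  refine ⟨128 + 64 * C1 + 4 * C2, by positivity, ?_⟩
  intro y N a m hy ha hm hN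
  have hD2 : 2 ≤ 2 ^ a := by
    calc 2 = 2 ^ 1 := by norm_num
      _ ≤ 2 ^ a := Nat.pow_le_pow_right (by norm_num) ha
  have hmD : m * 2 ^ a ≤ N := (Nat.le_self_pow (by norm_num) _).trans hN
  have hN1 : 1 ≤ N := by
    have : 1 ≤ m * 2 ^ a := Nat.mul_pos hm (by positivity)
    omega
  have hlog3 : (1 : ℝ) < Real.log 3 := by
    rw [Real.lt_log_iff_exp_lt (by norm_num)]
    exact Real.exp_one_lt_d9.trans (by norm_num)
  have hLy : 0 ≤ Real.log (Real.log y) := by
    refine Real.log_nonneg ?_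
    refine hlog3.le.trans (Real.log_le_log (by norm_num) ?_)
    exact_mod_cast hy
  have hNR : (0 : ℝ) ≤ N := Nat.cast_nonneg N
  have haR : (0 : ℝ) < a := by exact_mod_cast ha
  have hmR : (0 : ℝ) < m := by exact_mod_cast hm
  have hterm : 0 ≤ (128 + 64 * C1 + 4 * C2) * (1 + Real.log (Real.log y)) / ((a : ℝ) ^ 2 * m) := by
    positivity
  rcases Nat.lt_or_ge a 128 with hlt | hge
  · -- small `a`
    have e1 : (((Icc 1 N).filter (fun n => ∀ r < 2 ^ a,
        stat (2 ^ a) m r (fun i => (Om y (n + i) : ℝ)) < (a : ℝ) * m / 2)).card : ℝ) ≤ N := by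
      have := card_filter_le (Icc 1 N) (fun n => ∀ r < 2 ^ a,
        stat (2 ^ a) m r (fun i => (Om y (n + i) : ℝ)) < (a : ℝ) * m / 2)
      rw [Nat.card_Icc, Nat.add_sub_cancel] at this
      exact_mod_cast this
    have e2 : (1 : ℝ) ≤ (128 + 64 * C1 + 4 * C2) / a := by
      rw [le_div_iff₀ haR]
      have : (a : ℝ) < 128 := by exact_mod_cast hlt
      nlinarith
    calc _ ≤ (N : ℝ) := e1
      _ = 1 * N := (one_mul _).symm
      _ ≤ _ := mul_le_mul_of_nonneg_right (by linarith) hNR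
  -- large `a`
  obtain ⟨z, hz1, hz2⟩ := root N
  obtain ⟨w, hw⟩ : ∃ w, w = min y z := ⟨_, rfl⟩
  have hwy : w ≤ y := hw ▸ min_le_left _ _
  have hwz : w ≤ z := hw ▸ min_le_right _ _
  have hw8 : w ^ 8 ≤ N := (Nat.pow_le_pow_left hwz 8).trans hz1
  let X : ℕ → ℝ := fun n =>
    ∑ j ∈ range m, ((om w (t0 (2 ^ a) n + j * 2 ^ a) : ℝ) - om w (t1 (2 ^ a) n + j * 2 ^ a))
  let H : ℕ → ℝ := fun n => ∑ j ∈ range m, (hp (t1 (2 ^ a) n + j * 2 ^ a) : ℝ)
  have hX : ∑ n ∈ Icc 1 N, X n ^ 2 ≤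
      C1 * (m * (1 + Real.log (Real.log y)) + (m : ℝ) ^ 2) * N := by
    refine (hP1 N a m w ha hm hN hw8).trans ?_
    refine mul_le_mul_of_nonneg_right ?_ hNR
    refine mul_le_mul_of_nonneg_left ?_ hC1.le
    have e1 : (max (w : ℝ) 3) ≤ y := max_le (by exact_mod_cast hwy) (by exact_mod_cast hy)
    have e2 : Real.log (Real.log (max (w : ℝ) 3)) ≤ Real.log (Real.log y) := by
      refine Real.log_le_log ?_ (Real.log_le_log ?_ e1)
      · refine lt_of_lt_of_le (by linarith) (Real.log_le_log (by norm_num) (le_max_right _ _))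
      · exact lt_of_lt_of_le (by norm_num) (le_max_right _ _)
    push_cast
    nlinarith
  have hH : ∑ n ∈ Icc 1 N, H n ≤ C2 * m * N := hP2 N a m ha hm hN
  have hkey : ∀ n ∈ Icc 1 N, (∀ r < 2 ^ a,
      stat (2 ^ a) m r (fun i => (Om y (n + i) : ℝ)) < (a : ℝ) * m / 2) →
        (a : ℝ) ^ 2 * m ^ 2 / 64 ≤ X n ^ 2 ∨ (a : ℝ) * m / 4 ≤ H n := by
    intro n hn hst
    rw [mem_Icc] at hn
    obtain ⟨r, hr⟩ : ∃ r, r = (2 ^ a - n % 2 ^ a) % 2 ^ a := ⟨_, rfl⟩
    have hrlt : r < 2 ^ a := by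
      rw [hr]
      exact Nat.mod_lt _ (by omega)
    have ht0 : t0 (2 ^ a) n = n + r := by rw [hr]; rfl
    have ht1 : t1 (2 ^ a) n = n + (r + 1) % 2 ^ a := by rw [hr]; rfl
    have hnr : 2 ^ a ∣ n + r := by
      rw [hr]
      have e1 : n % 2 ^ a < 2 ^ a := Nat.mod_lt _ (by omega)
      rcases Nat.eq_zero_or_pos (n % 2 ^ a) with e2 | e2
      · rw [e2, Nat.sub_zero, Nat.mod_self, Nat.add_zero]
        exact Nat.dvd_of_mod_eq_zero e2
      · rw [Nat.mod_eq_of_lt (by omega : 2 ^ a - n % 2 ^ a < 2 ^ a)]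
        have e3 := Nat.div_add_mod n (2 ^ a)
        refine ⟨n / 2 ^ a + 1, ?_⟩
        rw [Nat.mul_add, Nat.mul_one]
        omega
    have hodd : ¬ 2 ∣ n + (r + 1) % 2 ^ a := by
      have e2 : 2 ∣ 2 ^ a := dvd_pow_self 2 (by omega)
      have e3 : 2 ∣ n + r := dvd_trans e2 hnr
      rcases Nat.lt_or_ge (r + 1) (2 ^ a) with e4 | e4
      · rw [Nat.mod_eq_of_lt e4]
        omega
      · have e5 : r + 1 = 2 ^ a := by omega
        rw [e5, Nat.mod_self]
        omega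
    have hs := hst r hrlt
    have hbound : (a : ℝ) * m - 16 * m + X n - H n ≤
        stat (2 ^ a) m r (fun i => (Om y (n + i) : ℝ)) := by
      have e0 : (a : ℝ) * m - 16 * m + X n - H n = ∑ j ∈ range m, ((a : ℝ) - 16 +
          ((om w (t0 (2 ^ a) n + j * 2 ^ a) : ℝ) - om w (t1 (2 ^ a) n + j * 2 ^ a)) -
          (hp (t1 (2 ^ a) n + j * 2 ^ a) : ℝ)) := by
        rw [sum_sub_distrib, sum_add_distrib, sum_const, card_range, nsmul_eq_mul]
        ring
      rw [e0]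
      unfold stat
      refine sum_le_sum fun j hj => ?_
      rw [mem_range] at hj
      have hjm : j * 2 ^ a + 2 ^ a ≤ m * 2 ^ a := by
        have : (j + 1) * 2 ^ a ≤ m * 2 ^ a := Nat.mul_le_mul_right _ hj
        rw [Nat.add_mul, Nat.one_mul] at this
        exact this
      rw [ht0, ht1, Nat.mod_eq_of_lt hrlt]
      have e1 : n + (j * 2 ^ a + r) = n + r + j * 2 ^ a := by ring
      have e2 : n + (j * 2 ^ a + (r + 1) % 2 ^ a) = n + (r + 1) % 2 ^ a + j * 2 ^ a := by ring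
      beta_reduce
      rw [e1, e2]
      have hr1 : (r + 1) % 2 ^ a < 2 ^ a := Nat.mod_lt _ (by omega)
      have e3 : a + om w (n + r + j * 2 ^ a) ≤ Om y (n + r + j * 2 ^ a) :=
        low_om ha (by omega) (dvd_add hnr (dvd_mul_left _ _)) (by omega) hwy
      have e4 : Om y (n + (r + 1) % 2 ^ a + j * 2 ^ a) ≤
          om w (n + (r + 1) % 2 ^ a + j * 2 ^ a) + 16 + hp (n + (r + 1) % 2 ^ a + j * 2 ^ a) := by
        rw [hw]
        refine upp_om (N := N) (by omega) ?_ (by omega) hz2 hN1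
        intro hd
        have e5 : 2 ∣ j * 2 ^ a := dvd_mul_of_dvd_right (dvd_pow_self 2 (by omega)) _
        exact hodd ((Nat.dvd_add_left e5).1 hd)
      have e3' : (a : ℝ) + om w (n + r + j * 2 ^ a) ≤ Om y (n + r + j * 2 ^ a) := by
        exact_mod_cast e3
      have e4' : (Om y (n + (r + 1) % 2 ^ a + j * 2 ^ a) : ℝ) ≤
          om w (n + (r + 1) % 2 ^ a + j * 2 ^ a) + 16 + hp (n + (r + 1) % 2 ^ a + j * 2 ^ a) := by
        exact_mod_cast e4
      linarith
    by_contra hcon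
    push Not at hcon
    obtain ⟨c1, c2⟩ := hcon
    have ha128 : (128 : ℝ) ≤ a := by exact_mod_cast hge
    have c3 : |X n| < (a : ℝ) * m / 8 := by
      refine abs_lt_of_sq_lt_sq ?_ (by positivity)
      calc X n ^ 2 < (a : ℝ) ^ 2 * m ^ 2 / 64 := c1
        _ = ((a : ℝ) * m / 8) ^ 2 := by ring
    have c4 := (abs_lt.1 c3).1
    have c5 : 16 * (m : ℝ) ≤ a * m / 8 := by nlinarith
    linarith
  have hcard : (((Icc 1 N).filter (fun n => ∀ r < 2 ^ a,
      stat (2 ^ a) m r (fun i => (Om y (n + i) : ℝ)) < (a : ℝ) * m / 2)).card : ℝ) ≤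
      ((Icc 1 N).filter (fun n => (a : ℝ) ^ 2 * m ^ 2 / 64 ≤ X n ^ 2)).card +
      ((Icc 1 N).filter (fun n => (a : ℝ) * m / 4 ≤ H n)).card := by
    have e1 : (Icc 1 N).filter (fun n => ∀ r < 2 ^ a,
        stat (2 ^ a) m r (fun i => (Om y (n + i) : ℝ)) < (a : ℝ) * m / 2) ⊆
        (Icc 1 N).filter (fun n => (a : ℝ) ^ 2 * m ^ 2 / 64 ≤ X n ^ 2) ∪
        (Icc 1 N).filter (fun n => (a : ℝ) * m / 4 ≤ H n) := by
      intro n hn
      rw [mem_filter] at hn
      rw [mem_union, mem_filter, mem_filter]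
      rcases hkey n hn.1 hn.2 with h | h
      · exact Or.inl ⟨hn.1, h⟩
      · exact Or.inr ⟨hn.1, h⟩
    exact_mod_cast (card_le_card e1).trans (card_union_le _ _)
  have hM1 := markov (Icc 1 N) (fun n => X n ^ 2) (fun n _ => sq_nonneg _)
    ((a : ℝ) ^ 2 * m ^ 2 / 64)
  have hM2 := markov (Icc 1 N) H (fun n _ => sum_nonneg fun j _ => Nat.cast_nonneg _)
    ((a : ℝ) * m / 4)
  have b1 : (((Icc 1 N).filter (fun n => (a : ℝ) ^ 2 * m ^ 2 / 64 ≤ X n ^ 2)).card : ℝ) ≤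
      64 * (C1 * (m * (1 + Real.log (Real.log y)) + (m : ℝ) ^ 2) * N) / ((a : ℝ) ^ 2 * m ^ 2) := by
    rw [le_div_iff₀ (by positivity)]
    have := hM1.trans hX
    linarith
  have b2 : (((Icc 1 N).filter (fun n => (a : ℝ) * m / 4 ≤ H n)).card : ℝ) ≤
      4 * (C2 * m * N) / ((a : ℝ) * m) := by
    rw [le_div_iff₀ (by positivity)]
    have := hM2.trans hH
    linarith
  have b3 : 64 * (C1 * (m * (1 + Real.log (Real.log y)) + (m : ℝ) ^ 2) * N) /
      ((a : ℝ) ^ 2 * m ^ 2) ≤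
      (64 * C1 * (1 + Real.log (Real.log y)) / ((a : ℝ) ^ 2 * m) + 64 * C1 / a) * N := by
    have e1 : 64 * (C1 * (m * (1 + Real.log (Real.log y)) + (m : ℝ) ^ 2) * N) /
        ((a : ℝ) ^ 2 * m ^ 2) =
        (64 * C1 * (1 + Real.log (Real.log y)) / ((a : ℝ) ^ 2 * m) + 64 * C1 / (a : ℝ) ^ 2) * N := by
      field_simp
    rw [e1]
    refine mul_le_mul_of_nonneg_right ?_ hNR
    have e2 : 64 * C1 / (a : ℝ) ^ 2 ≤ 64 * C1 / a := by
      refine div_le_div_of_nonneg_left (by positivity) haR ?_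
      have : (1 : ℝ) ≤ a := by exact_mod_cast ha
      nlinarith
    linarith
  have b4 : 4 * (C2 * m * N) / ((a : ℝ) * m) = 4 * C2 / a * N := by
    field_simp
  have b5 : (64 * C1 * (1 + Real.log (Real.log y)) / ((a : ℝ) ^ 2 * m) + 64 * C1 / a) * N +
      4 * C2 / a * N ≤ ((128 + 64 * C1 + 4 * C2) / a +
        (128 + 64 * C1 + 4 * C2) * (1 + Real.log (Real.log y)) / ((a : ℝ) ^ 2 * m)) * N := by
    rw [← add_mul]
    refine mul_le_mul_of_nonneg_right ?_ hNR
    have e1 : 64 * C1 * (1 + Real.log (Real.log y)) / ((a : ℝ) ^ 2 * m) ≤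
        (128 + 64 * C1 + 4 * C2) * (1 + Real.log (Real.log y)) / ((a : ℝ) ^ 2 * m) := by
      refine div_le_div_of_nonneg_right ?_ (by positivity)
      refine mul_le_mul_of_nonneg_right (by linarith) (by linarith)
    have e2 : 64 * C1 / a + 4 * C2 / a ≤ (128 + 64 * C1 + 4 * C2) / a := by
      rw [← add_div]
      exact div_le_div_of_nonneg_right (by linarith) haR.le
    linarith
  linarith

end Pool.Agent.H6.OM
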