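import Pool.Agent.H19.OM.Stm

/-!
# QLO: independent coordinates, the statistics are small
-/

set_option autoImplicit false

namespace Pool.Agent.H6.OM

open Finset Pool.Agent.H19.OM

/-- the mean of a product over independent coordinates -/
theorem sum_two {k : ℕ} (s : Finset ℕ) (h : ℕ → ℝ) (h0 : ∑ x ∈ s, h x = 0) {i j : Fin k}
    (hij : i ≠ j) : ∑ n ∈ Fintype.piFinset (fun _ : Fin k => s), h (n i) * h (n j) = 0 := by
  classical
  have e1 : ∀ n ∈ Fintype.piFinset (fun _ : Fin k => s), h (n i) * h (n j) =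
      ∏ l, (if l = i ∨ l = j then h (n l) else 1) := by
    intro n _
    rw [prod_ite, prod_const_one, mul_one]
    have e2 : univ.filter (fun l : Fin k => l = i ∨ l = j) = {i, j} := by
      ext l
      simp
    rw [e2, prod_pair hij]
  rw [sum_congr rfl e1]
  have e3 := Finset.prod_univ_sum (fun _ : Fin k => s)
    (fun (l : Fin k) (x : ℕ) => if l = i ∨ l = j then h x else 1)
  rw [← e3]
  refine prod_eq_zero (mem_univ i) ?_
  simp only [true_or, if_true]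
  exact h0

theorem sum_one {k : ℕ} (s : Finset ℕ) (g : ℕ → ℝ) (i : Fin k) :
    ∑ n ∈ Fintype.piFinset (fun _ : Fin k => s), g (n i) =
      (∑ x ∈ s, g x) * (s.card : ℝ) ^ (k - 1) := by
  classical
  have e1 : ∀ n ∈ Fintype.piFinset (fun _ : Fin k => s), g (n i) =
      ∏ l, (if l = i then g (n l) else 1) := by
    intro n _
    rw [prod_ite_eq' univ i fun l => g (n l), if_pos (mem_univ i)]
  rw [sum_congr rfl e1]
  have e3 := Finset.prod_univ_sum (fun _ : Fin k => s)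
    (fun (l : Fin k) (x : ℕ) => if l = i then g x else 1)
  rw [← e3, ← mul_prod_erase univ _ (mem_univ i)]
  simp only [if_true]
  congr 1
  have e4 : ∀ l ∈ univ.erase i, ∑ x ∈ s, (if l = i then g x else (1 : ℝ)) = s.card := by
    intro l hl
    rw [mem_erase] at hl
    simp only [if_neg hl.1]
    rw [sum_const, nsmul_eq_mul, mul_one]
  rw [prod_congr rfl e4, prod_const, card_erase_of_mem (mem_univ i), card_univ, Fintype.card_fin]

theorem sum_sq {k m : ℕ} (s : Finset ℕ) (h : ℕ → ℝ) (h0 : ∑ x ∈ s, h x = 0) (p : Fin m → Fin k)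
    (hp : Function.Injective p) :
    ∑ n ∈ Fintype.piFinset (fun _ : Fin k => s), (∑ j, h (n (p j))) ^ 2 =
      m * ((∑ x ∈ s, h x ^ 2) * (s.card : ℝ) ^ (k - 1)) := by
  classical
  have e1 : ∀ n ∈ Fintype.piFinset (fun _ : Fin k => s), (∑ j, h (n (p j))) ^ 2 =
      ∑ j, ∑ j', h (n (p j)) * h (n (p j')) := by
    intro n _
    rw [sq, sum_mul_sum]
  rw [sum_congr rfl e1, sum_comm]
  have e2 : ∀ j ∈ (univ : Finset (Fin m)),
      ∑ n ∈ Fintype.piFinset (fun _ : Fin k => s), ∑ j', h (n (p j)) * h (n (p j')) =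
        (∑ x ∈ s, h x ^ 2) * (s.card : ℝ) ^ (k - 1) := by
    intro j _
    rw [sum_comm, sum_eq_single j]
    · rw [← sum_one s (fun x => h x ^ 2) (p j)]
      exact sum_congr rfl fun n _ => by ring
    · intro j' _ hj
      exact sum_two s h h0 (fun e => hj (hp e).symm)
    · intro hj
      exact absurd (mem_univ j) hj
  rw [sum_congr rfl e2, sum_const, card_univ, Fintype.card_fin, nsmul_eq_mul]

theorem var_le (s : Finset ℕ) (hs : s.Nonempty) (f : ℕ → ℝ) (μ : ℝ) :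
    ∑ x ∈ s, (f x - (∑ x ∈ s, f x) / s.card) = 0 ∧
    ∑ x ∈ s, (f x - (∑ x ∈ s, f x) / s.card) ^ 2 ≤ ∑ x ∈ s, (f x - μ) ^ 2 := by
  have hc : (0 : ℝ) < s.card := by exact_mod_cast hs.card_pos
  have e1 : ∀ ν : ℝ, ∑ x ∈ s, (f x - ν) ^ 2 =
      ∑ x ∈ s, f x ^ 2 - 2 * ν * ∑ x ∈ s, f x + s.card * ν ^ 2 := by
    intro ν
    rw [mul_sum, ← nsmul_eq_mul, ← sum_const, ← sum_sub_distrib, ← sum_add_distrib]
    exact sum_congr rfl fun x _ => by ring
  constructor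
  · rw [sum_sub_distrib, sum_const, nsmul_eq_mul, mul_div_cancel₀ _ hc.ne', sub_self]
  · rw [e1, e1]
    generalize ∑ x ∈ s, f x = B
    have e2 : (s.card : ℝ) * (μ - B / s.card) ^ 2 =
        (s.card : ℝ) * μ ^ 2 - 2 * μ * B + B ^ 2 / s.card := by
      field_simp
      ring
    have e3 : 0 ≤ (s.card : ℝ) * (μ - B / s.card) ^ 2 := by positivity
    have e4 : (s.card : ℝ) * (B / s.card) ^ 2 = B ^ 2 / s.card := by
      field_simp
    have e5 : 2 * (B / s.card) * B = 2 * (B ^ 2 / s.card) := by ring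
    rw [e4, e5]
    linarith

theorem markov' {α : Type} (s : Finset α) (f : α → ℝ) (hf : ∀ n ∈ s, 0 ≤ f n) (c : ℝ)
    (P : α → Prop) [DecidablePred P] (hP : ∀ n ∈ s, P n → c ≤ f n) :
    ((s.filter P).card : ℝ) * c ≤ ∑ n ∈ s, f n := by
  calc ((s.filter P).card : ℝ) * c = ∑ n ∈ s.filter P, c := by
        rw [sum_const, nsmul_eq_mul]
    _ ≤ ∑ n ∈ s.filter P, f n :=
        sum_le_sum fun n hn => hP n (mem_filter.1 hn).1 (mem_filter.1 hn).2
    _ ≤ ∑ n ∈ s, f n := sum_le_sum_of_subset_of_nonneg (filter_subset _ _) fun n hn _ => hf n hn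

theorem t_QLO (hTK : S_TK) : S_QLO := by
  classical
  obtain ⟨C, hC, hTK⟩ := hTK
  refine ⟨16 * C, by positivity, ?_⟩
  intro y N a m k hy hN ha hm hmk
  obtain ⟨μ, hμ⟩ := hTK y N hy hN
  have hD : 2 ≤ 2 ^ a := by
    calc 2 = 2 ^ 1 := by norm_num
      _ ≤ 2 ^ a := Nat.pow_le_pow_right (by norm_num) ha
  have hne : (Icc 1 N).Nonempty := ⟨1, mem_Icc.2 ⟨le_rfl, hN⟩⟩
  have hcard : ((Icc 1 N).card : ℝ) = N := by
    rw [Nat.card_Icc, Nat.add_sub_cancel]
  obtain ⟨v1, v2⟩ := var_le (Icc 1 N) hne (fun n => (Om y n : ℝ)) μ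
  obtain ⟨h, hh⟩ : ∃ h : ℕ → ℝ, h = fun n =>
      (Om y n : ℝ) - (∑ x ∈ Icc 1 N, (Om y x : ℝ)) / (Icc 1 N).card := ⟨_, rfl⟩
  have hh0 : ∑ x ∈ Icc 1 N, h x = 0 := by
    rw [hh]
    exact v1
  have hh2 : ∑ x ∈ Icc 1 N, h x ^ 2 ≤ C * (1 + Real.log (Real.log y)) * N := by
    rw [hh]
    exact v2.trans hμ
  have hNR : (0 : ℝ) ≤ N := Nat.cast_nonneg N
  have haR : (0 : ℝ) < a := by exact_mod_cast ha
  have hmR : (0 : ℝ) < m := by exact_mod_cast hm
  have hk1 : 1 ≤ k := le_trans (Nat.mul_pos hm (by positivity)) hmk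
  obtain ⟨V, hV⟩ : ∃ V : ℝ, V = (∑ x ∈ Icc 1 N, h x ^ 2) * ((Icc 1 N).card : ℝ) ^ (k - 1) :=
    ⟨_, rfl⟩
  have hVle : V ≤ C * (1 + Real.log (Real.log y)) * (N : ℝ) ^ k := by
    rw [hV, hcard]
    calc (∑ x ∈ Icc 1 N, h x ^ 2) * (N : ℝ) ^ (k - 1) ≤
        (C * (1 + Real.log (Real.log y)) * N) * (N : ℝ) ^ (k - 1) :=
          mul_le_mul_of_nonneg_right hh2 (by positivity)
      _ = C * (1 + Real.log (Real.log y)) * (N : ℝ) ^ k := by
          rw [mul_assoc _ (N : ℝ), ← pow_succ', Nat.sub_add_cancel hk1]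
  obtain ⟨Ω, hΩ⟩ : ∃ Ω : Finset (Fin k → ℕ), Ω = Fintype.piFinset (fun _ : Fin k => Icc 1 N) :=
    ⟨_, rfl⟩
  -- one statistic
  have hr : ∀ r < 2 ^ a, ((Ω.filter (fun n => (a : ℝ) * m / 2 ≤
      stat (2 ^ a) m r (fun i => if h : i < k then (Om y (n ⟨i, h⟩) : ℝ) else 0))).card : ℝ) ≤
      16 * V / ((a : ℝ) ^ 2 * m) := by
    intro r hr
    have hlt : ∀ (j : Fin m) (r' : ℕ), r' < 2 ^ a → (j : ℕ) * 2 ^ a + r' < k := by
      intro j r' hr'
      have h1 : ((j : ℕ) + 1) * 2 ^ a ≤ m * 2 ^ a := Nat.mul_le_mul_right _ j.2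
      rw [Nat.add_mul, Nat.one_mul] at h1
      omega
    have hpos : 0 < 2 ^ a := by omega
    let p : ℕ → Fin m → Fin k := fun r' j => ⟨(j : ℕ) * 2 ^ a + r' % 2 ^ a,
      hlt j _ (Nat.mod_lt _ hpos)⟩
    have hp : ∀ r', Function.Injective (p r') := by
      intro r' j j' hjj
      have h1 : (j : ℕ) * 2 ^ a + r' % 2 ^ a = (j' : ℕ) * 2 ^ a + r' % 2 ^ a :=
        congrArg Fin.val hjj
      have h2 : (j : ℕ) * 2 ^ a = (j' : ℕ) * 2 ^ a := by omega
      exact Fin.ext (Nat.eq_of_mul_eq_mul_right hpos h2)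
    have hst : ∀ n : Fin k → ℕ,
        stat (2 ^ a) m r (fun i => if h : i < k then (Om y (n ⟨i, h⟩) : ℝ) else 0) =
          ∑ j, h (n (p r j)) - ∑ j, h (n (p (r + 1) j)) := by
      intro n
      unfold stat
      rw [Finset.sum_range, ← sum_sub_distrib]
      refine sum_congr rfl fun j _ => ?_
      beta_reduce
      rw [dif_pos (hlt j _ (Nat.mod_lt _ hpos)), dif_pos (hlt j _ (Nat.mod_lt _ hpos)), hh]
      show _ = ((Om y (n (p r j)) : ℝ) - _) - ((Om y (n (p (r + 1) j)) : ℝ) - _)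
      ring
    have h1 : ∑ n ∈ Ω, (2 * (∑ j, h (n (p r j))) ^ 2 + 2 * (∑ j, h (n (p (r + 1) j))) ^ 2) =
        4 * m * V := by
      rw [sum_add_distrib, ← mul_sum, ← mul_sum, hΩ, sum_sq _ h hh0 _ (hp r),
        sum_sq _ h hh0 _ (hp (r + 1)), ← hV]
      ring
    have h2 := markov' Ω
      (fun n => 2 * (∑ j, h (n (p r j))) ^ 2 + 2 * (∑ j, h (n (p (r + 1) j))) ^ 2)
      (fun n _ => by positivity) ((a : ℝ) ^ 2 * m ^ 2 / 4)
      (fun n => (a : ℝ) * m / 2 ≤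
        stat (2 ^ a) m r (fun i => if h : i < k then (Om y (n ⟨i, h⟩) : ℝ) else 0))
      (by
        intro n _ hn
        rw [hst n] at hn
        generalize ∑ j, h (n (p r j)) = u at hn ⊢
        generalize ∑ j, h (n (p (r + 1) j)) = v at hn ⊢
        have e1 : 0 ≤ (a : ℝ) * m / 2 := by positivity
        have e2 : ((a : ℝ) * m / 2) ^ 2 ≤ (u - v) ^ 2 := pow_le_pow_left₀ e1 hn 2
        nlinarith [sq_nonneg (u + v)])
    rw [h1] at h2
    rw [le_div_iff₀ (by positivity)]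
    have h3 : (Ω.filter (fun n => (a : ℝ) * m / 2 ≤
      stat (2 ^ a) m r (fun i => if h : i < k then (Om y (n ⟨i, h⟩) : ℝ) else 0))).card *
        ((a : ℝ) ^ 2 * m) * m ≤ 16 * V * m := by linarith
    exact le_of_mul_le_mul_right h3 hmR
  rw [← hΩ]
  have hun : ((Ω.filter (fun n => ∃ r < 2 ^ a, (a : ℝ) * m / 2 ≤
      stat (2 ^ a) m r (fun i => if h : i < k then (Om y (n ⟨i, h⟩) : ℝ) else 0))).card : ℝ) ≤
      ∑ r ∈ range (2 ^ a), ((Ω.filter (fun n => (a : ℝ) * m / 2 ≤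
      stat (2 ^ a) m r (fun i => if h : i < k then (Om y (n ⟨i, h⟩) : ℝ) else 0))).card : ℝ) := by
    have e1 : Ω.filter (fun n => ∃ r < 2 ^ a, (a : ℝ) * m / 2 ≤
        stat (2 ^ a) m r (fun i => if h : i < k then (Om y (n ⟨i, h⟩) : ℝ) else 0)) ⊆
        (range (2 ^ a)).biUnion (fun r => Ω.filter (fun n => (a : ℝ) * m / 2 ≤
          stat (2 ^ a) m r (fun i => if h : i < k then (Om y (n ⟨i, h⟩) : ℝ) else 0))) := by
      intro n hn
      rw [mem_filter] at hn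
      obtain ⟨hn1, r, hr1, hr2⟩ := hn
      rw [mem_biUnion]
      exact ⟨r, mem_range.2 hr1, mem_filter.2 ⟨hn1, hr2⟩⟩
    exact_mod_cast (card_le_card e1).trans card_biUnion_le
  refine hun.trans ?_
  refine (sum_le_card_nsmul _ _ _ fun r hr' => hr r (mem_range.1 hr')).trans ?_
  rw [card_range, nsmul_eq_mul]
  push_cast
  have e5 : (2 : ℝ) ^ a * (16 * V / ((a : ℝ) ^ 2 * m)) ≤
      2 ^ a * (16 * (C * (1 + Real.log (Real.log y)) * (N : ℝ) ^ k) / ((a : ℝ) ^ 2 * m)) := by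
    refine mul_le_mul_of_nonneg_left ?_ (by positivity)
    exact div_le_div_of_nonneg_right (by linarith) (by positivity)
  refine e5.trans (le_of_eq ?_)
  ring

end Pool.Agent.H6.OM
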